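import Mathlib

namespace Pool.Agent.H.MP_558b4e_nt

open Finset

lemma val_ge (r N : ℕ) (hr : r.Prime) (T : Finset ℕ)
    (hT : ∀ i ∈ T, 1 ≤ i ∧ r ^ i ≤ 2 * (N % r ^ i) ∧ N % r ^ i + 1 < r ^ i) :
    T.card ≤ (catalan N).factorization r := by
  have h1 := succ_mul_catalan_eq_centralBinom N
  have c0 : catalan N ≠ 0 := by
    intro h; rw [h, mul_zero] at h1; exact Nat.centralBinom_ne_zero N h1.symm
  have h2 := congrArg (fun m => m.factorization r) h1
  have lt : ∀ i, i < r ^ i := fun i => Nat.lt_pow_self hr.one_lt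
  rw [Nat.factorization_mul (by omega) c0, Finsupp.add_apply, Nat.centralBinom_eq_two_mul_choose,
    two_mul, Nat.factorization_choose' hr (b := 2 * N + 2)
      (lt_of_le_of_lt (Nat.log_le_self _ _) (by omega)),
    Nat.factorization_eq_card_pow_dvd_of_lt hr (b := 2 * N + 2) (by omega)
      (lt_trans (by omega) (lt _))] at h2
  have dj : Disjoint ((Ico 1 (2 * N + 2)).filter fun i => r ^ i ∣ N + 1) T := by
    rw [disjoint_left]
    intro i hi hi2
    have h3 := (hT i hi2).2.2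
    have h4 := (Nat.dvd_add_right (Nat.dvd_mul_right (r ^ i) (N / r ^ i))).1
      (show r ^ i ∣ r ^ i * (N / r ^ i) + (N % r ^ i + 1) by
        rw [← add_assoc, Nat.div_add_mod]; exact (mem_filter.1 hi).2)
    exact absurd (Nat.le_of_dvd (Nat.succ_pos _) h4) (by omega)
  have := card_le_card (show ((Ico 1 (2 * N + 2)).filter fun i => r ^ i ∣ N + 1) ∪ T ⊆
      (Ico 1 (2 * N + 2)).filter fun i => r ^ i ≤ N % r ^ i + N % r ^ i by
    intro i hi
    rcases mem_union.1 hi with hi | hi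
    · obtain ⟨a1, a2⟩ := mem_filter.1 hi
      refine mem_filter.2 ⟨a1, ?_⟩
      have h4 := (Nat.dvd_add_right (Nat.dvd_mul_right (r ^ i) (N / r ^ i))).1
        (show r ^ i ∣ r ^ i * (N / r ^ i) + (N % r ^ i + 1) by
          rw [← add_assoc, Nat.div_add_mod]; exact a2)
      have := Nat.le_of_dvd (Nat.succ_pos _) h4
      have := lt i
      have := (mem_Ico.1 a1).1
      omega
    · obtain ⟨a1, a2, a3⟩ := hT i hi
      have := lt i
      have := Nat.mod_le N (r ^ i)
      exact mem_filter.2 ⟨mem_Ico.2 ⟨a1, by omega⟩, by omega⟩)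
  rw [card_union_of_disjoint dj] at this
  omega

def G (R M t : ℕ) : Finset ℕ := (range t).filter fun j => R ^ (j + 1) + 2 ≤ 2 * (M % R ^ (j + 1))

lemma G_mod (R M t : ℕ) : G R (M % R ^ t) t = G R M t := by
  refine filter_congr fun j hj => ?_
  rw [Nat.mod_mod_of_dvd _ (pow_dvd_pow R (mem_range.1 hj))]

lemma sum_blocks (f : ℕ → ℝ) (Q R : ℕ) :
    ∑ x ∈ range (Q * R), f x = ∑ d ∈ range R, ∑ ρ ∈ range Q, f (Q * d + ρ) := by
  induction R with
  | zero => simp
  | succ R ih => rw [Nat.mul_succ, sum_range_add, ih, sum_range_succ]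

lemma W_le (R : ℕ) (hR : 6 ≤ R) (t : ℕ) :
    ∑ ρ ∈ range (R ^ t), (1 / 8 : ℝ) ^ (G R ρ t).card ≤ (7 / 8 * R) ^ t := by
  induction t with
  | zero => simp [G]
  | succ t ih =>
    rw [pow_succ, sum_blocks, sum_comm, pow_succ]
    refine le_trans (sum_le_sum (g := fun ρ => (1 / 8 : ℝ) ^ (G R ρ t).card * (7 / 8 * R))
      fun ρ hρ => ?_) (by rw [← sum_mul]; gcongr)
    have hρ' := mem_range.1 hρ
    have h1 : ∀ d ∈ range R, (1 / 8 : ℝ) ^ (G R (R ^ t * d + ρ) (t + 1)).card ≤
        (1 / 8 : ℝ) ^ (G R ρ t).card * ((if d ∈ range ((R + 3) / 2) then 1 else 0) + 1 / 8) := by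
      intro d hd
      have hd' := mem_range.1 hd
      have e : G R (R ^ t * d + ρ) t = G R ρ t := by
        rw [← G_mod, Nat.mul_add_mod, G_mod]
      have e2 : G R (R ^ t * d + ρ) (t + 1) = if R ^ (t + 1) + 2 ≤ 2 * ((R ^ t * d + ρ) % R ^ (t + 1))
          then insert t (G R ρ t) else G R ρ t := by
        rw [← e, G, range_add_one, filter_insert]; rfl
      have nt : t ∉ G R ρ t := by simp [G]
      rw [e2]
      have p0 : (0 : ℝ) < (1 / 8) ^ (G R ρ t).card := by positivity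
      split_ifs with h2 h3 h3
      · rw [card_insert_of_notMem nt, pow_succ]; nlinarith
      · rw [card_insert_of_notMem nt, pow_succ]; nlinarith
      · nlinarith
      · exfalso
        apply h2
        have h4 : R + 2 ≤ 2 * d := by have := mt mem_range.2 h3; omega
        have h5 : 0 < R ^ t := by positivity
        rw [Nat.mod_eq_of_lt (by rw [pow_succ]; nlinarith), pow_succ]
        nlinarith
    refine (sum_le_sum h1).trans ?_
    rw [← mul_sum, sum_add_distrib, sum_ite_mem, sum_const, sum_const, card_range]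
    have h2 : ((range R ∩ range ((R + 3) / 2)).card : ℝ) ≤ 3 / 4 * R := by
      have a1 : 4 * (range R ∩ range ((R + 3) / 2)).card ≤ 3 * R := by
        have := (card_le_card (inter_subset_right (s₁ := range R))).trans
          (card_range ((R + 3) / 2)).le
        omega
      have a2 : (4 : ℝ) * (range R ∩ range ((R + 3) / 2)).card ≤ 3 * R := by exact_mod_cast a1
      linarith
    simp only [nsmul_eq_mul, mul_one]
    gcongr
    linarith

lemma bad_le (R : ℕ) (hR : 6 ≤ R) (t A α β X : ℕ) (hα : Nat.Coprime α R) :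
    (((range X).filter fun p => (G R (α * p + β) t).card < A).card : ℝ) ≤
      (X + R ^ t) * (8 ^ A * (7 / 8) ^ t) := by
  have Q0 : 0 < R ^ t := by positivity
  have h1 := card_le_mul_card_image_of_maps_to
    (s := (range X).filter fun p => (G R (α * p + β) t).card < A)
    (t := (range (R ^ t)).filter fun ρ => (G R ρ t).card < A) (f := fun p => (α * p + β) % R ^ t)
    (fun p hp => mem_filter.2 ⟨mem_range.2 (Nat.mod_lt _ Q0), by
      rw [G_mod]; exact (mem_filter.1 hp).2⟩) (X / R ^ t + 1) (fun b _ => by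
      rw [← card_range (X / R ^ t + 1)]
      refine card_le_card_of_injOn (fun p => p / R ^ t) (fun p hp => ?_) ?_
      · have := mem_range.1 (mem_filter.1 (mem_filter.1 hp).1).1
        exact mem_range.2 (Nat.lt_succ_of_le (Nat.div_le_div_right this.le))
      · intro p hp q hq h
        have h2 : α * p + β ≡ α * q + β [MOD R ^ t] :=
          ((mem_filter.1 hp).2).trans ((mem_filter.1 hq).2).symm
        have h3 : p ≡ q [MOD R ^ t] :=
          Nat.ModEq.cancel_left_of_coprime (hα.pow_right t).symm (Nat.ModEq.add_right_cancel' _ h2)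
        rw [← Nat.div_add_mod p (R ^ t), ← Nat.div_add_mod q (R ^ t), h3]
        simp only at h
        rw [h])
  have h2 : (((range (R ^ t)).filter fun ρ => (G R ρ t).card < A).card : ℝ) * (1 / 8) ^ A ≤
      (7 / 8 * R) ^ t := by
    refine le_trans ?_ (W_le R hR t)
    rw [← nsmul_eq_mul, ← sum_const]
    refine le_trans (sum_le_sum fun ρ hρ => ?_)
      (sum_le_sum_of_subset_of_nonneg (filter_subset _ _) fun _ _ _ => by positivity)
    exact pow_le_pow_of_le_one (by norm_num) (by norm_num) (mem_filter.1 hρ).2.le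
  have h3 : (((range (R ^ t)).filter fun ρ => (G R ρ t).card < A).card : ℝ) ≤
      8 ^ A * (7 / 8 * R) ^ t := by
    have := mul_le_mul_of_nonneg_left h2 (show (0 : ℝ) ≤ 8 ^ A by positivity)
    rwa [mul_left_comm, ← mul_pow, show (8 : ℝ) * (1 / 8) = 1 by norm_num, one_pow, mul_one] at this
  have h4 : ((X / R ^ t + 1 : ℕ) : ℝ) * R ^ t ≤ X + R ^ t := by
    have : (X / R ^ t + 1) * R ^ t ≤ X + R ^ t := by
      have := Nat.div_mul_le_self X (R ^ t); nlinarith
    exact_mod_cast this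
  calc _ ≤ ((X / R ^ t + 1 : ℕ) : ℝ) *
        (((range (R ^ t)).filter fun ρ => (G R ρ t).card < A).card : ℝ) := by exact_mod_cast h1
    _ ≤ ((X / R ^ t + 1 : ℕ) : ℝ) * (8 ^ A * (7 / 8 * R) ^ t) := by gcongr
    _ = ((X / R ^ t + 1 : ℕ) : ℝ) * R ^ t * (8 ^ A * (7 / 8) ^ t) := by rw [mul_pow]; ring
    _ ≤ _ := by gcongr

lemma pf_le (u p : ℕ) (hu : 0 < u) (hp : p ∈ (Nat.centralBinom u).primeFactors) : p ≤ 2 * u := by
  have h := Nat.pow_factorization_choose_le (p := p) (n := 2 * u) (k := u) (by omega)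
  have h1 : 0 < (Nat.centralBinom u).factorization p := by
    rw [← Nat.support_factorization, Finsupp.mem_support_iff] at hp; omega
  exact (Nat.le_self_pow h1.ne' p).trans h

lemma pf_card (u : ℕ) (hu : 4 ≤ u) :
    4 ^ u < (2 * u) ^ ((Nat.centralBinom u).primeFactors.card + 1) := by
  refine (Nat.four_pow_lt_mul_centralBinom u hu).trans_le ?_
  rw [pow_succ, mul_comm]
  refine Nat.mul_le_mul ?_ (by omega)
  conv_lhs => rw [← Nat.prod_factorization_pow_eq_self (Nat.centralBinom_ne_zero u)]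
  rw [Finsupp.prod, Nat.support_factorization]
  exact prod_le_pow_card _ _ _ fun p _ => Nat.pow_factorization_choose_le (by omega)

lemma good_prime (n y t w : ℕ) (S : Finset ℕ) (hS : ∀ r ∈ S, r.Prime ∧ n + 1 < r ∧ r ≤ y)
    (hw : w = ∏ r ∈ S, r) (hn : 1 ≤ n) (hy : 2 * n ≤ y) (h1 : y ^ (3 * t) ≤ w)
    (h2 : 2 * ((y + 1) * (y + 2)) ≤ w) (h3 : w ≤ 4 ^ y)
    (h4 : 8 * ((y : ℝ) + 1) ^ 2 * (8 ^ n * (7 / 8) ^ t) ≤ 1) :
    ∃ p ∈ (Nat.centralBinom w).primeFactors, y < p ∧
      (∀ r ∈ S, n ≤ (G (r ^ 3) (w / r * p + 0) t).card) ∧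
      (∀ r ∈ n.primeFactors, n ≤ (G (r ^ 3) (w * p + (n + 1)) t).card) := by
  by_contra hc
  push Not at hc
  have cube : ∀ r : ℕ, r.Prime → 6 ≤ r ^ 3 := fun r hr =>
    le_trans (by norm_num) (Nat.pow_le_pow_left hr.two_le 3)
  have sub : (Nat.centralBinom w).primeFactors ⊆ range (y + 1) ∪
      (S.biUnion fun r => (range (2 * w + 1)).filter
        fun p => (G (r ^ 3) (w / r * p + 0) t).card < n) ∪
      (n.primeFactors.biUnion fun r => (range (2 * w + 1)).filter
        fun p => (G (r ^ 3) (w * p + (n + 1)) t).card < n) := by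
    intro p hp
    have hp2 := pf_le w p (by nlinarith) hp
    simp only [mem_union, mem_range, mem_biUnion, mem_filter]
    by_cases a1 : y < p
    · by_cases a2 : ∀ r ∈ S, n ≤ (G (r ^ 3) (w / r * p + 0) t).card
      · obtain ⟨r, b1, b2⟩ := hc p hp a1 a2
        exact Or.inr ⟨r, b1, by omega, b2⟩
      · push Not at a2
        obtain ⟨r, b1, b2⟩ := a2
        exact Or.inl (Or.inr ⟨r, b1, by omega, b2⟩)
    · exact Or.inl (Or.inl (by omega))
  obtain ⟨E, hE⟩ : ∃ E : ℝ, E = 8 ^ n * (7 / 8) ^ t := ⟨_, rfl⟩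
  have E0 : 0 < E := by rw [hE]; positivity
  have bd : ∀ r α β : ℕ, r.Prime → r ≤ y → Nat.Coprime α r → (((range (2 * w + 1)).filter
      fun p => (G (r ^ 3) (α * p + β) t).card < n).card : ℝ) ≤ 4 * w * E := by
    intro r α β hr hry hα
    refine (bad_le _ (cube r hr) t n α β _ (hα.pow_right 3)).trans ?_
    rw [← hE]
    have a1 : 2 * w + 1 + (r ^ 3) ^ t ≤ 4 * w := by
      have : (r ^ 3) ^ t ≤ w := by
        rw [← pow_mul]; exact (Nat.pow_le_pow_left hry _).trans h1
      nlinarith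
    have a2 : ((2 * w + 1 : ℕ) : ℝ) + ((r ^ 3 : ℕ) : ℝ) ^ t ≤ 4 * w := by exact_mod_cast a1
    gcongr
  have c1 : ((S.biUnion fun r => (range (2 * w + 1)).filter
      fun p => (G (r ^ 3) (w / r * p + 0) t).card < n).card : ℝ) ≤ S.card * (4 * w * E) := by
    refine le_trans ((Nat.cast_le (α := ℝ)).2 card_biUnion_le) ?_
    rw [← nsmul_eq_mul, Nat.cast_sum]
    refine sum_le_card_nsmul _ _ _ fun r hr => bd r _ _ (hS r hr).1 (hS r hr).2.2 ?_
    rw [hw, ← mul_prod_erase S (fun r => r) hr, Nat.mul_div_cancel_left _ (hS r hr).1.pos]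
    refine Nat.Coprime.prod_left fun s hs => ?_
    exact (Nat.coprime_primes (hS s (mem_of_mem_erase hs)).1 (hS r hr).1).2 (ne_of_mem_erase hs)
  have c2 : ((n.primeFactors.biUnion fun r => (range (2 * w + 1)).filter
      fun p => (G (r ^ 3) (w * p + (n + 1)) t).card < n).card : ℝ) ≤
      n.primeFactors.card * (4 * w * E) := by
    refine le_trans ((Nat.cast_le (α := ℝ)).2 card_biUnion_le) ?_
    rw [← nsmul_eq_mul, Nat.cast_sum]
    refine sum_le_card_nsmul _ _ _ fun r hr => ?_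
    have a1 := Nat.le_of_mem_primeFactors hr
    have a2 := Nat.prime_of_mem_primeFactors hr
    refine bd r _ _ a2 (by omega) ?_
    rw [hw]
    refine Nat.Coprime.prod_left fun s hs => ?_
    exact (Nat.coprime_primes (hS s hs).1 a2).2 (by have := (hS s hs).2.1; omega)
  have c3 : S.card + n.primeFactors.card ≤ y + 1 := by
    rw [← card_union_of_disjoint, ← card_range (y + 1)]
    · refine card_le_card fun r hr => mem_range.2 ?_
      rcases mem_union.1 hr with h | h
      · have := (hS r h).2.2; omega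
      · have := Nat.le_of_mem_primeFactors h; omega
    · rw [disjoint_left]
      intro r a1 a2
      have := (hS r a1).2.1; have := Nat.le_of_mem_primeFactors a2; omega
  have c4 := (card_le_card sub).trans ((card_union_le _ _).trans
    (Nat.add_le_add_right (card_union_le _ _) _))
  rw [card_range] at c4
  have c5 : ((Nat.centralBinom w).primeFactors.card : ℝ) ≤ y + 1 + (y + 1) * (4 * w * E) := by
    have a1 : (S.card : ℝ) + n.primeFactors.card ≤ y + 1 := by exact_mod_cast c3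
    have a2 := mul_le_mul_of_nonneg_right a1 (show 0 ≤ 4 * w * E by positivity)
    have a3 := (Nat.cast_le (α := ℝ)).2 c4
    push_cast at a3
    linarith
  have c6 : w < (y + 1) * ((Nat.centralBinom w).primeFactors.card + 1) := by
    have a1 := pf_card w (by nlinarith)
    have a2 : 2 * w ≤ 4 ^ (y + 1) := by rw [pow_succ]; omega
    have a3 := a1.trans_le (Nat.pow_le_pow_left a2 _)
    rw [← pow_mul] at a3
    exact (Nat.pow_lt_pow_iff_right (by norm_num)).1 a3
  have c7 : (w : ℝ) < (y + 1) * ((Nat.centralBinom w).primeFactors.card + 1) := by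
    exact_mod_cast c6
  have c8 : 2 * (((y : ℝ) + 1) * (y + 2)) ≤ w := by exact_mod_cast h2
  rw [← hE] at h4
  have c9 := mul_le_mul_of_nonneg_left c5 (show (0 : ℝ) ≤ y + 1 by positivity)
  have c10 := mul_le_mul_of_nonneg_left h4 (show (0 : ℝ) ≤ w by positivity)
  linarith

lemma params (n : ℕ) : ∃ (y t : ℕ) (S : Finset ℕ), (∀ r ∈ S, r.Prime ∧ n + 1 < r ∧ r ≤ y) ∧
    2 * n + 1 ≤ y ∧ y ^ (3 * t) ≤ ∏ r ∈ S, r ∧ 2 * ((y + 1) * (y + 2)) ≤ ∏ r ∈ S, r ∧
    ∏ r ∈ S, r ≤ 4 ^ y ∧ 8 * ((y : ℝ) + 1) ^ 2 * (8 ^ n * (7 / 8) ^ t) ≤ 1 := by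
  obtain ⟨c, hc⟩ : ∃ c, c = n + 5824 := ⟨_, rfl⟩
  obtain ⟨a, ha⟩ : ∃ a, a = 4 * c := ⟨_, rfl⟩
  obtain ⟨t, ht⟩ : ∃ t, t = 6 * (2 * a + 3 * n + 5) := ⟨_, rfl⟩
  have y1 : 91 * a ^ 3 ≤ 2 ^ a := by
    have a1 : c < 2 ^ c := Nat.lt_two_pow_self
    calc 91 * a ^ 3 = 5824 * c ^ 3 := by rw [ha]; ring
      _ ≤ c * c ^ 3 := Nat.mul_le_mul_right _ (by omega)
      _ = c ^ 4 := by ring
      _ ≤ (2 ^ c) ^ 4 := Nat.pow_le_pow_left a1.le _
      _ = 2 ^ a := by rw [← pow_mul, ha, mul_comm]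
  have y2 : a < 2 ^ a := Nat.lt_two_pow_self
  have y3 : 2 * 2 ^ (a - 1) = 2 ^ a := by rw [← pow_succ']; congr 1; omega
  obtain ⟨S, hS⟩ : ∃ S, S = ((range (2 ^ a + 1)).filter Nat.Prime).filter fun r => n + 1 < r :=
    ⟨_, rfl⟩
  have mS : ∀ r ∈ S, r.Prime ∧ n + 1 < r ∧ r ≤ 2 ^ a := by
    intro r hr
    simp only [hS, mem_filter, mem_range] at hr
    exact ⟨hr.1.2, hr.2, by omega⟩
  have s1 : (Nat.centralBinom (2 ^ (a - 1))).primeFactors.card ≤ S.card + (n + 2) := by
    rw [← card_range (n + 2)]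
    refine le_trans (card_le_card fun p hp => ?_) (card_union_le _ _)
    have a1 := pf_le _ p (by positivity) hp
    have a2 := Nat.prime_of_mem_primeFactors hp
    simp only [hS, mem_union, mem_filter, mem_range]
    by_cases h : n + 1 < p
    · exact Or.inl ⟨⟨by omega, a2⟩, h⟩
    · exact Or.inr (by omega)
  have s2 : 2 ^ a < a * (S.card + (n + 3)) := by
    have a1 := pf_card (2 ^ (a - 1)) (by omega)
    rw [y3, ← pow_mul, show 4 = 2 ^ 2 by norm_num, ← pow_mul, y3] at a1
    exact ((Nat.pow_lt_pow_iff_right (by norm_num)).1 a1).trans_le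
      (Nat.mul_le_mul_left _ (by omega))
  have s3 : a * (3 * t) ≤ S.card := by
    have a1 : a * (91 * a ^ 2) < a * (S.card + (n + 3)) :=
      lt_of_le_of_lt (le_trans (le_of_eq (by ring)) y1) s2
    have a2 := Nat.lt_of_mul_lt_mul_left a1
    have a3 : a * (3 * t) ≤ a * (90 * a) := Nat.mul_le_mul_left _ (by omega)
    have a4 : 1 * a ≤ a * a := Nat.mul_le_mul_right _ (by omega)
    nlinarith
  have s4 : (2 ^ a) ^ (3 * t) ≤ ∏ r ∈ S, r := by
    rw [← pow_mul]
    exact (Nat.pow_le_pow_right (by norm_num) s3).trans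
      (pow_card_le_prod _ _ _ fun r hr => (mS r hr).1.two_le)
  refine ⟨2 ^ a, t, S, mS, by omega, s4, le_trans ?_ s4, ?_, ?_⟩
  · refine le_trans ?_ (Nat.pow_le_pow_right (by positivity) (show 3 ≤ 3 * t by omega))
    generalize 2 ^ a = y at *
    have : 10 ≤ y := by omega
    nlinarith [Nat.mul_le_mul this (Nat.mul_le_mul this (le_refl y)),
      Nat.mul_le_mul this (le_refl (y * y))]
  · refine le_trans ?_ (primorial_le_four_pow _)
    rw [hS, primorial]
    exact prod_le_prod_of_subset_of_one_le' (filter_subset _ _)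
      fun r hr _ => (mem_filter.1 hr).2.pos
  · have a1 : ((7 : ℝ) / 8) ^ t ≤ (1 / 2) ^ (2 * a + 3 * n + 5) := by
      rw [ht, pow_mul]; gcongr; norm_num
    have a2 : ((2 ^ a : ℕ) : ℝ) + 1 ≤ 2 * 2 ^ a := by
      have : (1 : ℝ) ≤ 2 ^ a := one_le_pow₀ (by norm_num)
      push_cast; linarith
    calc _ ≤ 8 * (2 * 2 ^ a : ℝ) ^ 2 * (8 ^ n * (1 / 2) ^ (2 * a + 3 * n + 5)) := by gcongr
      _ = (2 * (1 / 2)) ^ (2 * a + 3 * n + 5) := by
        rw [mul_pow 2 (1 / 2 : ℝ), show (8 : ℝ) = 2 ^ 3 by norm_num, ← pow_mul]; ring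
      _ = 1 := by norm_num

theorem main (n : ℕ) (hn : 1 ≤ n) :
    ∃ m, 0 < m ∧ Nat.Coprime m n ∧ m * n ∣ catalan (m + n) := by
  obtain ⟨y, t, S, hS, h0, h1, h2, h3, h4⟩ := params n
  obtain ⟨w, hw⟩ : ∃ w, w = ∏ r ∈ S, r := ⟨_, rfl⟩
  rw [← hw] at h1 h2 h3
  obtain ⟨p, p1, p2, p3, p4⟩ := good_prime n y t w S hS hw hn (by omega) h1 h2 h3 h4
  have pp := Nat.prime_of_mem_primeFactors p1
  have w0 : 0 < w := by nlinarith
  have cw : ∀ r : ℕ, r.Prime → r ∣ w → r ∈ S := fun r hr h => by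
    rw [hw] at h
    obtain ⟨s, hs, h⟩ := (Prime.dvd_finsetProd_iff hr.prime _).1 h
    rwa [(Nat.prime_dvd_prime_iff_eq hr (hS s hs).1).1 h]
  have c0 : catalan (w * p + n) ≠ 0 := by
    have h1 := succ_mul_catalan_eq_centralBinom (w * p + n)
    intro h; rw [h, mul_zero] at h1; exact Nat.centralBinom_ne_zero _ h1.symm
  have one : ∀ r x i : ℕ, r.Prime → n + 1 < r → r * x = w * p → r ^ i ≤ 2 * (x % r ^ i) →
      r ∣ catalan (w * p + n) := by
    intro r x i hr hrn hx hi
    have := val_ge r (w * p + n) hr {i + 1} (by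
      intro j hj
      rw [mem_singleton.1 hj, ← hx, pow_succ']
      have a1 : x % r ^ i < r ^ i := Nat.mod_lt _ (pow_pos hr.pos _)
      have a2 : r * (x % r ^ i + 1) ≤ r * r ^ i := Nat.mul_le_mul_left _ a1
      have a3 : (r * x + n) % (r * r ^ i) = r * (x % r ^ i) + n := by
        conv_lhs => rw [← Nat.div_add_mod x (r ^ i), mul_add, ← mul_assoc, add_assoc,
          Nat.mul_add_mod]
        exact Nat.mod_eq_of_lt (by nlinarith)
      rw [a3]
      refine ⟨by omega, by nlinarith, by nlinarith⟩)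
    exact (hr.dvd_iff_one_le_factorization c0).2 (by simpa using this)
  have d1 : w ∣ catalan (w * p + n) := by
    conv_lhs => rw [hw]
    refine Finset.prod_primes_dvd _ (fun r hr => (hS r hr).1.prime) fun r hr => ?_
    obtain ⟨j, hj⟩ := card_pos.1 (lt_of_lt_of_le hn (p3 r hr))
    have := (mem_filter.1 hj).2
    rw [add_zero, ← pow_mul] at this
    refine one r (w / r * p) _ (hS r hr).1 (hS r hr).2.1 ?_ (le_trans (Nat.le_add_right _ 2) this)
    rw [← mul_assoc, Nat.mul_div_cancel' (hw ▸ dvd_prod_of_mem _ hr)]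
  have d2 : p ∣ catalan (w * p + n) := by
    have a1 : 0 < (Nat.centralBinom w).factorization p := by
      rw [← Nat.support_factorization, Finsupp.mem_support_iff] at p1; omega
    rw [Nat.centralBinom_eq_two_mul_choose, two_mul,
      Nat.factorization_choose' pp (Nat.lt_succ_self _)] at a1
    obtain ⟨i, hi⟩ := card_pos.1 a1
    exact one p w i pp (by omega) (mul_comm _ _) (by have := (mem_filter.1 hi).2; omega)
  have d3 : n ∣ catalan (w * p + n) := by
    rw [← Nat.factorization_prime_le_iff_dvd (by omega) c0]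
    intro r hr
    by_cases h : r ∣ n
    · have a1 := p4 r (Nat.mem_primeFactors.2 ⟨hr, h, by omega⟩)
      have a2 := val_ge r (w * p + n) hr ((G (r ^ 3) (w * p + (n + 1)) t).image
        fun j => 3 * (j + 1)) (by
          intro i hi
          obtain ⟨j, hj, rfl⟩ := mem_image.1 hi
          have b1 := (mem_filter.1 hj).2
          rw [← pow_mul, ← add_assoc] at b1
          have q0 : 0 < r ^ (3 * (j + 1)) := pow_pos hr.pos _
          generalize r ^ (3 * (j + 1)) = q at *
          have b2 : (w * p + n) % q < q := Nat.mod_lt _ q0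
          have b3 : (w * p + n + 1) % q = ((w * p + n) % q + 1) % q := by simp
          rcases Nat.lt_or_ge ((w * p + n) % q + 1) q with b4 | b4
          · rw [b3, Nat.mod_eq_of_lt b4] at b1
            exact ⟨by omega, by omega, b4⟩
          · rw [b3, show (w * p + n) % q + 1 = q by omega, Nat.mod_self] at b1
            omega)
      rw [card_image_of_injective _ (fun a b h => by simpa using h)] at a2
      have := Nat.factorization_lt r (show n ≠ 0 by omega)
      omega
    · rw [Nat.factorization_eq_zero_of_not_dvd h]; omega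
  have e1 : Nat.Coprime w p := by
    rw [Nat.coprime_comm, pp.coprime_iff_not_dvd]
    intro h; have := (hS p (cw p pp h)).2.2; omega
  have e2 : Nat.Coprime (w * p) n := by
    rw [Nat.coprime_iff_gcd_eq_one]
    by_contra h
    obtain ⟨r, hr, hd⟩ := Nat.exists_prime_and_dvd h
    have a1 := Nat.le_of_dvd hn (hd.trans (Nat.gcd_dvd_right _ _))
    rcases (Nat.Prime.dvd_mul hr).1 (hd.trans (Nat.gcd_dvd_left _ _)) with h | h
    · have := (hS r (cw r hr h)).2.1; omega
    · have := (Nat.prime_dvd_prime_iff_eq hr pp).1 h; omega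
  exact ⟨w * p, Nat.mul_pos w0 pp.pos, e2,
    e2.mul_dvd_of_dvd_of_dvd (e1.mul_dvd_of_dvd_of_dvd d1 d2) d3⟩

end Pool.Agent.H.MP_558b4e_nt
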